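import Mathlib
import Pool.Agent.V1173.Bidisc

/-!
# The map `F^M = (z₁ + (1 - 1/M) z₂², z₂)` is not an extreme point of `S⁰(U², M)`
-/

set_option autoImplicit false

namespace Pool.Agent.Results.MP_d9fe16_an.ShearNotExtreme

open Set Metric Filter Topology Pool.Agent.V1173.Bidisc

theorem result : ∀ M : ℝ, 1 < M → shear (1 - 1 / M) ∈ S0M M ∧
    ∃ g ∈ S0M M, ∃ h ∈ S0M M, (∃ z ∈ U2, g z ≠ h z) ∧
      ∃ l : ℝ, 0 < l ∧ l < 1 ∧
        ∀ z ∈ U2, shear (1 - 1 / M) z = (l : ℂ) • g z + ((1 - l : ℝ) : ℂ) • h z := by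
  intro M hM
  have hM0 : 0 < M := by linarith
  have hM1 : 0 < 1 / M := by positivity
  have hM2 : 1 / M < 1 := by rw [div_lt_one hM0]; exact hM
  have hsum : 2 - 1 / M < M := by
    have h : (2 - 1 / M) = (2 * M - 1) / M := by field_simp
    rw [h, div_lt_iff₀ hM0]
    nlinarith [sq_nonneg (M - 1), mul_pos (sub_pos.2 hM) (sub_pos.2 hM)]
  obtain ⟨e, he, he1, he2⟩ : ∃ e : ℝ, 0 < e ∧ e ≤ 1 / M ∧ 2 - 1 / M + e ≤ M := by
    refine ⟨min (1 / M) (M - (2 - 1 / M)), lt_min hM1 (by linarith), min_le_left _ _, ?_⟩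
    have := min_le_right (1 / M) (M - (2 - 1 / M))
    linarith
  have key : ∀ d : ℝ, |d| ≤ e → shear (1 - 1 / M + d) ∈ S0M M := by
    intro d hd
    have h1 : |1 - 1 / M + d| ≤ 1 - 1 / M + e := by
      refine (abs_add_le _ _).trans ?_
      rw [abs_of_pos (by linarith)]
      linarith
    refine shear_mem_S0M (h1.trans (by linarith)) (by linarith)
  refine ⟨by simpa using key 0 (by simpa using he.le), shear (1 - 1 / M + e),
    key e (by rw [abs_of_pos he]), shear (1 - 1 / M + -e),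
    key (-e) (by rw [abs_neg, abs_of_pos he]), ⟨(0, 1 / 2), ?_, ?_⟩, 1 / 2, by norm_num,
    by norm_num, ?_⟩
  · rw [mem_U2]; norm_num
  · intro h
    have h1 := congrArg Prod.fst h
    simp only [shear] at h1
    have h2 : ((1 - 1 / M + e : ℝ) : ℂ) = ((1 - 1 / M + -e : ℝ) : ℂ) := by
      have h3 := add_left_cancel h1
      exact mul_right_cancel₀ (by norm_num) h3
    have h3 : 1 - 1 / M + e = 1 - 1 / M + -e := by exact_mod_cast h2
    linarith
  · intro z _
    refine Prod.ext ?_ ?_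
    · simp only [shear, Prod.fst_add, Prod.smul_fst, smul_eq_mul]
      push_cast
      ring
    · simp only [shear, Prod.snd_add, Prod.smul_snd, smul_eq_mul]
      push_cast
      ring

end Pool.Agent.Results.MP_d9fe16_an.ShearNotExtreme
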